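import Pool.Agent.Helper29.SH.Goals

/-!
# Packet SH-BIJ (MP_0a002a_al)
-/

set_option autoImplicit false

namespace Pool.Agent.Helper86.SH.BIJ

open Subgroup Pool.H83Shunkov Pool.Agent.Helper29.SH

/-- **BIJ.** -/
theorem t_BIJ : Pool.Agent.Helper29.SH.S_BIJ := by
  intro M _ a K hfin hinv hfpf y hy
  have hmem : ∀ k ∈ K, a⁻¹ * k⁻¹ * a * k ∈ K := fun k hk =>
    K.mul_mem (hinv _ (K.inv_mem hk)) hk
  have : Finite K := hfin.to_subtype
  let f : K → K := fun k => ⟨a⁻¹ * (k : M)⁻¹ * a * k, hmem k k.2⟩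
  have hinj : Function.Injective f := by
    intro k l hkl
    have h1 : a⁻¹ * (k : M)⁻¹ * a * k = a⁻¹ * (l : M)⁻¹ * a * l := congrArg Subtype.val hkl
    have h2 : ((l : M) * (k : M)⁻¹) * a = a * ((l : M) * (k : M)⁻¹) := by
      have h3 : (l : M) * a * (a⁻¹ * (k : M)⁻¹ * a * k) * (k : M)⁻¹ =
          (l : M) * a * (a⁻¹ * (l : M)⁻¹ * a * l) * (k : M)⁻¹ := by rw [h1]
      have h4 : (l : M) * a * (a⁻¹ * (k : M)⁻¹ * a * k) * (k : M)⁻¹ =
          ((l : M) * (k : M)⁻¹) * a := by group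
      have h5 : (l : M) * a * (a⁻¹ * (l : M)⁻¹ * a * l) * (k : M)⁻¹ =
          a * ((l : M) * (k : M)⁻¹) := by group
      rw [← h4, h3, h5]
    have h6 := hfpf _ (K.mul_mem l.2 (K.inv_mem k.2)) h2
    apply Subtype.ext
    exact (mul_inv_eq_one.1 h6).symm
  obtain ⟨k, hk⟩ := (Finite.injective_iff_surjective.1 hinj) ⟨y, hy⟩
  exact ⟨k, k.2, (congrArg Subtype.val hk).symm⟩

end Pool.Agent.Helper86.SH.BIJ
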