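import Pool.Agent.Helper29.SH.Goals

/-!
# Packet SH-QTREE (MP_0a002a_al): groups acting on trees
-/

set_option autoImplicit false

namespace Pool.Agent.Helper86.SH

open Subgroup Pool.H83Shunkov Pool.Agent.Helper29.SH

section

variable {H : Type} [Group H]

lemma pf_conj {x : H} (hx : PairFinite x) (g : H) : PairFinite (g * x * g⁻¹) := by
  intro h
  have h1 := hx.conj_pair g⁻¹ (g⁻¹ * h)
  have e1 : (g⁻¹)⁻¹ * x * g⁻¹ = g * x * g⁻¹ := by group
  have e2 : (g⁻¹ * h)⁻¹ * x * (g⁻¹ * h) = h⁻¹ * (g * x * g⁻¹) * h := by group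
  rw [e1, e2] at h1
  exact h1

lemma pf_of_shunkov (hS : IsShunkov H) (K : Subgroup H) [hK : K.Normal] (hfin : (K : Set H).Finite)
    {x : H} {p : ℕ} (hp : p.Prime) (hxK : x ∉ K) (hxp : x ^ p ∈ K) : PairFinite x := by
  intro g
  have htop : Subgroup.normalizer (K : Set H) = ⊤ := normalizer_eq_top_iff.2 hK
  have h1 := hS K hfin x (g⁻¹ * x * g) g⁻¹ p hp (by rw [htop]; trivial) (by rw [htop]; trivial)
    (by rw [htop]; trivial) hxp hxK (by
      have : (g⁻¹ * x * g⁻¹⁻¹)⁻¹ * (g⁻¹ * x * g) = 1 := by group
      rw [this]; exact one_mem _)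
  exact h1.subset (closure_mono Set.subset_union_left)

/-- The subgroup generated by the pair-finite elements. -/
def PP (H : Type) [Group H] : Subgroup H := closure {x : H | PairFinite x}

instance PP_normal : (PP H).Normal := by
  constructor
  intro n hn g
  unfold PP at hn ⊢
  induction hn using closure_induction with
  | mem x hx => exact subset_closure (pf_conj hx g)
  | one => simp
  | mul x y _ _ hx hy =>
    have : g * (x * y) * g⁻¹ = (g * x * g⁻¹) * (g * y * g⁻¹) := by group
    rw [this]
    exact mul_mem hx hy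
  | inv x _ hx =>
    have : g * x⁻¹ * g⁻¹ = (g * x * g⁻¹)⁻¹ := by group
    rw [this]
    exact inv_mem hx

/-- If a group has only finitely many elements of finite order, they are in the radical. -/
lemma tor_le_rad {E : Type} [Group E] (hfin : {g : E | IsOfFinOrder g}.Finite) {b : E}
    (hb : IsOfFinOrder b) : b ∈ lfRad E := by
  have hfi : (centralizer ({b} : Set E)).FiniteIndex := by
    rw [finiteIndex_iff_finite_quotient]
    have : Finite {g : E | IsOfFinOrder g} := hfin.to_subtype
    let F : E ⧸ centralizer ({b} : Set E) → {g : E | IsOfFinOrder g} := fun q =>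
      ⟨q.out * b * q.out⁻¹, by
        have := MonoidHom.isOfFinOrder (MulAut.conj q.out).toMonoidHom hb
        simpa using this⟩
    refine Finite.of_injective F ?_
    intro q q' h
    have h1 : q.out * b * q.out⁻¹ = q'.out * b * q'.out⁻¹ := congrArg Subtype.val h
    have h2 : (q.out)⁻¹ * q'.out ∈ centralizer ({b} : Set E) := by
      rw [mem_centralizer_singleton_iff]
      calc (q.out)⁻¹ * q'.out * b = (q.out)⁻¹ * (q'.out * b * q'.out⁻¹) * q'.out := by group
        _ = (q.out)⁻¹ * (q.out * b * q.out⁻¹) * q'.out := by rw [h1]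
        _ = b * ((q.out)⁻¹ * q'.out) := by group
    rw [← QuotientGroup.out_eq' q, ← QuotientGroup.out_eq' q']
    exact QuotientGroup.eq.2 h2
  refine mem_lfRad_of_comm hb hfi ?_
  intro h hh
  rw [mem_centralizer_singleton_iff] at hh
  exact hh

end

/-- **QTREE.** -/
theorem t_QTREE : S_TPR → S_QHOM → S_QUNI → S_SSUB → S_LFA → S_QTREE := by
  classical
  intro hTPR hQHOM hQUNI hSSUB hLFA G V _ _ T hT hact hinv hstab H _ f hker hSh hInf a ha
  have hafin : IsOfFinOrder a := orderOf_pos_iff.1 ha.pos
  by_cases hrad : (lfRad H : Set H).Finite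
  swap
  · refine ⟨lfRad H ⊔ zpowers a, mem_sup_right (mem_zpowers a), ?_, ?_⟩
    · exact Set.Infinite.mono (SetLike.coe_subset_coe.2 le_sup_left) hrad
    · apply hLFA H a (lfRad H) hafin ?_ isLocFin_lfRad
      intro k hk
      have : (lfRad H).Normal := inferInstance
      have := this.conj_mem k hk a⁻¹
      simpa using this
  -- `a` is pair-finite
  have hapf : PairFinite a := by
    apply pf_of_shunkov hSh ⊥ (by simp) ha
    · rw [mem_bot]
      rintro rfl
      rw [orderOf_one] at ha
      exact Nat.not_prime_one ha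
    · rw [pow_orderOf_eq_one]
      exact one_mem _
  have haP : a ∈ PP H := subset_closure hapf
  -- `P` has infinitely many elements of finite order
  have hInfP : InfTor (PP H) := by
    intro hfin
    have hex : ∃ g : H, IsOfFinOrder g ∧ g ∉ lfRad H := by
      by_contra hcon
      push Not at hcon
      exact hInf (hrad.subset hcon)
    obtain ⟨g, hg, hgT⟩ := hex
    obtain ⟨x, p, hp, hxo, hxT, hxp⟩ := exists_prime_pow (lfRad H) hg hgT
    have hxpf : PairFinite x := pf_of_shunkov hSh (lfRad H) hrad hp hxT hxp
    have hxP : x ∈ PP H := subset_closure hxpf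
    have hx' : IsOfFinOrder (⟨x, hxP⟩ : PP H) := by
      obtain ⟨n, hn, h⟩ := isOfFinOrder_iff_pow_eq_one.1 hxo
      exact isOfFinOrder_iff_pow_eq_one.2 ⟨n, hn, Subtype.ext (by simpa using h)⟩
    have h9 : (⟨x, hxP⟩ : PP H) ∈ lfRad (PP H) := tor_le_rad hfin hx'
    exact hxT (mem_lfRad_of_normal (F := PP H) (a := ⟨x, hxP⟩) h9)
  -- `QQ P`
  have hQP : QQ (PP H) := by
    apply hQUNI (PP H) {S : Finset H // ∀ s ∈ S, PairFinite s}
      (fun S => (closure (S.1 : Set H)).subgroupOf (PP H))
    · intro S S'
      refine ⟨⟨S.1 ∪ S'.1, ?_⟩, ?_, ?_⟩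
      · intro s hs
        rcases Finset.mem_union.1 hs with h | h
        · exact S.2 s h
        · exact S'.2 s h
      · exact comap_mono (closure_mono (by simp))
      · exact comap_mono (closure_mono (by simp))
    · rintro ⟨g, hg⟩
      obtain ⟨t, ht, hgt⟩ := mem_closure_finset hg
      exact ⟨⟨t, fun s hs => ht hs⟩, hgt⟩
    · intro S
      let _ : MulAction H V := MulAction.compHom V f
      have hsm : ∀ (h : H) (v : V), h • v = f h • v := fun _ _ => rfl
      obtain ⟨v, hv⟩ := hTPR H V T hT (by
          intro h u w huw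
          exact hact (f h) u w huw) (by
          intro h u w huw
          exact hinv (f h) u w huw) S.1 S.2
      have hv' : ∀ x ∈ closure (S.1 : Set H), f x ∈ MulAction.stabilizer G v := by
        intro x hx
        have : closure (S.1 : Set H) ≤ (MulAction.stabilizer G v).comap f := by
          rw [closure_le]
          intro u hu
          exact hv u hu
        exact this hx
      let F : ((closure (S.1 : Set H)).subgroupOf (PP H)) →* MulAction.stabilizer G v :=
        { toFun := fun x => ⟨f ((x : PP H) : H), hv' _ x.2⟩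
          map_one' := Subtype.ext (map_one f)
          map_mul' := fun x y => Subtype.ext (map_mul f _ _) }
      refine hQHOM _ _ F ?_ (hstab v)
      let j : F.ker →* f.ker :=
        { toFun := fun x => ⟨(((x : (closure (S.1 : Set H)).subgroupOf (PP H)) : PP H) : H), by
            have h1 : F x.1 = 1 := x.2
            exact congrArg Subtype.val h1⟩
          map_one' := rfl
          map_mul' := fun _ _ => rfl }
      refine hker.comp j ?_
      intro x y hxy
      have h1 := congrArg Subtype.val hxy
      exact Subtype.ext (Subtype.ext (Subtype.ext h1))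
  -- conclusion
  have hShP : IsShunkov (PP H) := hSSUB H (PP H) (PP H).subtype (PP H).subtype_injective hSh
  have hgood : Good (MonoidHom.id (PP H)).ker := by
    have : Finite (MonoidHom.id (PP H)).ker := by
      have h1 : (MonoidHom.id (PP H)).ker = ⊥ := by
        rw [MonoidHom.ker_eq_bot_iff]
        exact Function.injective_id
      rw [h1]
      infer_instance
    exact good_finite _
  have hord : orderOf (⟨a, haP⟩ : PP H) = orderOf a := Subgroup.orderOf_mk a haP
  obtain ⟨K, hK1, hK2, hK3⟩ := hQP (PP H) (MonoidHom.id (PP H)) hgood hShP hInfP ⟨a, haP⟩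
    (by rw [hord]; exact ha)
  refine ⟨K.map (PP H).subtype, ⟨⟨a, haP⟩, hK1, rfl⟩, ?_, hK3.map _⟩
  rw [Subgroup.coe_map]
  exact hK2.image (PP H).subtype_injective.injOn

end Pool.Agent.Helper86.SH
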